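import Pool.Agent.H94.LP4.H74.CT.Slow
import Pool.Agent.H94.LP4.M07
import Pool.Agent.H94.LP4.M18

/-!
# The jumps of the growth of the general dimension are rare
-/

namespace Pool.Agent.H74.CT

open MvPolynomial Pool.Agent.H18.Fat Pool.Agent.H18.Ub Pool.Agent.H22.LU

section seq

variable {t : ℕ → ℕ} {C E : ℕ}

theorem log_mono {a b : ℕ} (h : a ≤ b) : Real.log a ≤ Real.log b := by
  rcases Nat.eq_zero_or_pos a with h0 | h0
  · rw [h0, Nat.cast_zero, Real.log_zero]
    exact Real.log_natCast_nonneg b
  · exact Real.log_le_log (by exact_mod_cast h0) (by exact_mod_cast h)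

theorem log_jump {a b : ℕ} (hE : 1 ≤ E) (ha : 1 ≤ a) (h : b < E * (b - a)) :
    1 ≤ E * (Real.log b - Real.log a) := by
  have hb : 1 ≤ b := by
    by_contra hc
    have : b = 0 := by omega
    subst this
    simp at h
  have hab : a ≤ b := by
    by_contra hc
    have h1 : b - a = 0 := by omega
    rw [h1, Nat.mul_zero] at h
    omega
  have ha' : (0 : ℝ) < a := by exact_mod_cast ha
  have hb' : (0 : ℝ) < b := by exact_mod_cast hb
  have h1 : (b : ℝ) < E * (b - a) := by
    have h2 : ((b : ℕ) : ℝ) < ((E * (b - a) : ℕ) : ℝ) := by exact_mod_cast h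
    rw [Nat.cast_mul, Nat.cast_sub hab] at h2
    exact h2
  have h2 := Real.one_sub_inv_le_log_of_pos (div_pos hb' ha')
  rw [Real.log_div hb'.ne' ha'.ne', inv_div] at h2
  have h3 : 1 - (a : ℝ) / b = (b - a) / b := by
    field_simp
  rw [h3] at h2
  have h4 : (1 : ℝ) ≤ E * ((b - a) / b) := by
    rw [← mul_div_assoc, le_div_iff₀ hb', one_mul]
    exact h1.le
  exact h4.trans (mul_le_mul_of_nonneg_left h2 (by positivity))

/-- The jumps of a nondecreasing sequence are rare. -/
theorem seq_jumps (ht : Monotone t) (h0 : t 0 = 0) (hC : 1 ≤ C) (hE : 1 ≤ E) (X : ℕ) :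
    (((Finset.range (X + 1)).filter fun j => t j < E * (t j - t (j - C))).card : ℝ) ≤
      C * (1 + E * Real.log (t X)) := by
  classical
  set L : ℕ → ℝ := fun j => Real.log (t j) with hL
  have hLm : ∀ a b, a ≤ b → L a ≤ L b := fun a b hab => log_mono (ht hab)
  have hL0 : ∀ a, 0 ≤ L a := fun a => Real.log_natCast_nonneg _
  have key : ∀ X : ℕ, (((Finset.range (X + 1)).filter
      fun j => t j < E * (t j - t (j - C))).card : ℝ) ≤
      (((Finset.range (X + 1)).filter fun j => 0 < t j ∧ t (j - C) = 0).card : ℝ) +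
        E * ∑ i ∈ Finset.range C, L (X - i) := by
    intro X
    induction X with
    | zero =>
      have h1 : (Finset.range (0 + 1)).filter (fun j => t j < E * (t j - t (j - C))) = ∅ := by
        rw [Finset.filter_eq_empty_iff]
        intro j hj
        rw [Finset.mem_range] at hj
        have h2 : j = 0 := by omega
        subst h2
        rw [h0]
        simp
      rw [h1, Finset.card_empty, Nat.cast_zero]
      have h2 : 0 ≤ ∑ i ∈ Finset.range C, L (0 - i) := Finset.sum_nonneg fun i _ => hL0 _
      positivity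
    | succ X ih =>
      have hshift : ∑ i ∈ Finset.range C, L (X + 1 - i) + L (X + 1 - C) =
          ∑ i ∈ Finset.range C, L (X - i) + L (X + 1) := by
        obtain ⟨c, rfl⟩ : ∃ c, C = c + 1 := ⟨C - 1, by omega⟩
        rw [Finset.sum_range_succ' (fun i => L (X + 1 - i)),
          Finset.sum_range_succ (fun i => L (X - i))]
        have h1 : ∑ i ∈ Finset.range c, L (X + 1 - (i + 1)) = ∑ i ∈ Finset.range c, L (X - i) :=
          Finset.sum_congr rfl fun i _ => by
            have : X + 1 - (i + 1) = X - i := by omega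
            rw [this]
        have h2 : X + 1 - (c + 1) = X - c := by omega
        rw [h1, h2, Nat.sub_zero]
        ring
      have hmono := hLm (X + 1 - C) (X + 1) (Nat.sub_le _ _)
      have hE' : (0 : ℝ) ≤ E := by positivity
      rw [Finset.range_add_one (n := X + 1), Finset.filter_insert, Finset.filter_insert]
      have hn : ∀ q : ℕ → Prop, ∀ _ : DecidablePred q,
          X + 1 ∉ (Finset.range (X + 1)).filter q := by
        intro q _ h
        rw [Finset.mem_filter, Finset.mem_range] at h
        omega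
      by_cases hbad : t (X + 1) < E * (t (X + 1) - t (X + 1 - C))
      · rw [if_pos hbad, Finset.card_insert_of_notMem (hn _ _), Nat.cast_add, Nat.cast_one]
        by_cases hz : t (X + 1 - C) = 0
        · have hpos : 0 < t (X + 1) := by
            by_contra hc
            have h1 : t (X + 1) = 0 := by omega
            rw [h1] at hbad
            simp at hbad
          rw [if_pos ⟨hpos, hz⟩, Finset.card_insert_of_notMem (hn _ _), Nat.cast_add, Nat.cast_one]
          have h1 : E * (∑ i ∈ Finset.range C, L (X - i)) ≤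
              E * ∑ i ∈ Finset.range C, L (X + 1 - i) :=
            mul_le_mul_of_nonneg_left (by linarith) hE'
          linarith
        · rw [if_neg fun h => hz h.2]
          have h1 := log_jump hE (a := t (X + 1 - C)) (b := t (X + 1)) (by omega) hbad
          have h2 : ∑ i ∈ Finset.range C, L (X + 1 - i) =
              ∑ i ∈ Finset.range C, L (X - i) + (L (X + 1) - L (X + 1 - C)) := by linarith
          rw [h2, mul_add]
          have h3 : L (X + 1) - L (X + 1 - C) =
              Real.log (t (X + 1)) - Real.log (t (X + 1 - C)) := rfl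
          rw [h3]
          linarith
      · rw [if_neg hbad]
        have h1 : E * (∑ i ∈ Finset.range C, L (X - i)) ≤
            E * ∑ i ∈ Finset.range C, L (X + 1 - i) :=
          mul_le_mul_of_nonneg_left (by linarith) hE'
        have h2 : (((Finset.range (X + 1)).filter fun j => 0 < t j ∧ t (j - C) = 0).card : ℝ) ≤
            ((if 0 < t (X + 1) ∧ t (X + 1 - C) = 0 then
              insert (X + 1) ((Finset.range (X + 1)).filter fun j => 0 < t j ∧ t (j - C) = 0)
              else (Finset.range (X + 1)).filter fun j => 0 < t j ∧ t (j - C) = 0).card : ℝ) := by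
          split_ifs
          · exact_mod_cast Finset.card_le_card (Finset.subset_insert _ _)
          · exact le_rfl
        linarith
  refine (key X).trans ?_
  have hz : (((Finset.range (X + 1)).filter fun j => 0 < t j ∧ t (j - C) = 0).card : ℝ) ≤ C := by
    by_cases hex : ∃ j, 0 < t j
    · have h1 := Nat.find_spec hex
      have h2 : (Finset.range (X + 1)).filter (fun j => 0 < t j ∧ t (j - C) = 0) ⊆
          Finset.Ico (Nat.find hex) (Nat.find hex + C) := by
        intro j hj
        rw [Finset.mem_filter] at hj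
        rw [Finset.mem_Ico]
        refine ⟨Nat.find_min' hex hj.2.1, ?_⟩
        by_contra hc
        have h3 := ht (show Nat.find hex ≤ j - C by omega)
        omega
      have h3 := Finset.card_le_card h2
      rw [Nat.card_Ico] at h3
      have h4 : Nat.find hex + C - Nat.find hex = C := by omega
      rw [h4] at h3
      exact_mod_cast h3
    · have h2 : (Finset.range (X + 1)).filter (fun j => 0 < t j ∧ t (j - C) = 0) = ∅ := by
        rw [Finset.filter_eq_empty_iff]
        intro j _ hj
        exact hex ⟨j, hj.1⟩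
      rw [h2, Finset.card_empty, Nat.cast_zero]
      positivity
  have hs : ∑ i ∈ Finset.range C, L (X - i) ≤ C * L X := by
    calc ∑ i ∈ Finset.range C, L (X - i) ≤ ∑ _i ∈ Finset.range C, L X :=
          Finset.sum_le_sum fun i _ => hLm _ _ (Nat.sub_le _ _)
      _ = C * L X := by rw [Finset.sum_const, Finset.card_range, nsmul_eq_mul]
  have hE' : (0 : ℝ) ≤ E := by positivity
  have h3 := mul_le_mul_of_nonneg_left hs hE'
  have h4 : (C : ℝ) * (1 + E * Real.log (t X)) = C + E * (C * L X) := by
    rw [hL]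
    ring
  rw [h4]
  linarith

end seq

theorem grow_mono {s j : ℕ} {ι : Type*} (p : ι → Fin (s + 1 + 1) → ℂ) (hp : ∀ l, p l 0 ≠ 0)
    (w : ι → ℕ) : 2 * Module.finrank ℂ (fatForms (s + 1) (j + 1) p w) ≤
      Module.finrank ℂ (fatForms (s + 1) (j + 2) p w) +
        Module.finrank ℂ (fatForms (s + 1) j p w) := by
  let μ : MvPolynomial (Fin (s + 1 + 1)) ℂ →ₗ[ℂ] MvPolynomial (Fin (s + 1 + 1)) ℂ :=
    LinearMap.mulLeft ℂ (X 0)
  have hμ : Function.Injective μ := by
    intro a b hab
    exact mul_left_cancel₀ (X_ne_zero 0) hab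
  have hfin : ∀ V : Submodule ℂ (MvPolynomial (Fin (s + 1 + 1)) ℂ),
      Module.finrank ℂ (Submodule.map μ V) = Module.finrank ℂ V := fun V =>
    (Submodule.equivMapOfInjective μ hμ V).finrank_eq.symm
  have hsub : ∀ i, Submodule.map μ (fatForms (s + 1) i p w) ≤ fatForms (s + 1) (i + 1) p w := by
    intro i F hF
    obtain ⟨R, hR, rfl⟩ := hF
    refine ⟨?_, fun l => ?_⟩
    · rw [Nat.add_comm i 1]
      exact (isHomogeneous_X ℂ 0).mul hR.1
    · have h1 := van_mul (vanishes_zero (p l) (X 0)) (hR.2 l)
      rwa [Nat.zero_add] at h1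
  have i1 := fin_fatForms (s + 1) (j + 1) p w
  have i2 := fin_fatForms (s + 1) (j + 2) p w
  have h1 := mulgen (X 1) (Submodule.map μ (fatForms (s + 1) j p w)) (fatForms (s + 1) (j + 1) p w)
    (Submodule.map μ (fatForms (s + 1) (j + 1) p w)) (fatForms (s + 1) (j + 2) p w) (hsub j)
    (hsub (j + 1)) (fun R hR => ⟨?_, fun l => ?_⟩) fun R hR h => ?_
  · rw [hfin, hfin] at h1
    omega
  · have h2 : j + 2 = 1 + (j + 1) := by omega
    rw [h2]
    exact (isHomogeneous_X ℂ 1).mul hR.1
  · have h2 := van_mul (vanishes_zero (p l) (X 1)) (hR.2 l)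
    rwa [Nat.zero_add] at h2
  · obtain ⟨F, hF, hFR⟩ := h
    have h2 : X 0 * F = X 1 * R := hFR
    have h3 : (X 0 : MvPolynomial (Fin (s + 1 + 1)) ℂ) ∣ X 1 * R := ⟨F, h2.symm⟩
    rcases X_dvd_mul_iff.1 h3 with h4 | h4
    · rw [X_dvd_X] at h4
      exact absurd h4 (by simp)
    · obtain ⟨R', rfl⟩ := h4
      refine ⟨R', ⟨?_, fun l => ?_⟩, rfl⟩
      · exact hom_div hR.1
      · exact van_div (by rw [eval_X]; exact hp l) (hR.2 l)

/-- The jumps are rare. -/
theorem card_jumps {r : ℕ} (hr : 1 ≤ r) {C E : ℕ} (hC : 1 ≤ C) (hE : 1 ≤ E) {k : ℕ}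
    (w : Fin k → ℕ) (t : ℕ → ℕ) (ht : ∀ j, t j = generalDim r j w - generalDim r (j - 1) w) (X : ℕ) :
    (((Finset.range (X + 1)).filter fun j => t j < E * (t j - t (j - C))).card : ℝ) ≤
      C * (1 + E * Real.log ((X + r - 1).choose (r - 1) : ℕ)) := by
  classical
  obtain ⟨s, rfl⟩ : ∃ s, r = s + 1 := ⟨r - 1, by omega⟩
  -- the growth of the dimension
  have hgen : ∀ N : ℕ, ∃ p : Fin k → Fin (s + 1 + 1) → ℂ, (∀ l, p l 0 ≠ 0) ∧ ∀ j ≤ N,
      Module.finrank ℂ (fatForms (s + 1) j p w) = generalDim (s + 1) j w := by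
    intro N
    obtain ⟨p, hp1, hp2⟩ := Pool.Agent.H18.Cub.exists_of_general
      ((Pool.Agent.H18.Pr.general_ne_zero (s + 1) k).and
        (Pool.Agent.H18.Ub.general_all (Finset.range (N + 1)) fun j _ =>
          generalDim_spec (s + 1) j w))
    exact ⟨p, hp1, fun j hj => hp2 j (Finset.mem_range.2 (by omega))⟩
  have hmono : ∀ j, 2 * generalDim (s + 1) (j + 1) w ≤
      generalDim (s + 1) (j + 2) w + generalDim (s + 1) j w := by
    intro j
    obtain ⟨p, hp1, hp2⟩ := hgen (j + 2)
    have h1 := grow_mono (j := j) p hp1 w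
    rw [hp2 j (by omega), hp2 (j + 1) (by omega), hp2 (j + 2) le_rfl] at h1
    exact h1
  have h0 : t 0 = 0 := by
    rw [ht]
    exact Nat.sub_self _
  have hle : ∀ j, generalDim (s + 1) (j + 1) w ≤
      generalDim (s + 1) j w + (j + 1 + s).choose s := by
    intro j
    obtain ⟨p, hp1, hp2⟩ := hgen (j + 1)
    have h1 := grow_le (j := j) p hp1 w
    rw [hp2 j (by omega), hp2 (j + 1) le_rfl] at h1
    have h2 := finrank_le_mons (s + 1) (j + 1) p fun _ => 0
    have h3 : (j + (s + 1)).choose (s + 1) ≤
        Module.finrank ℂ (fatForms (s + 1) j p fun _ => 0) := by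
      have h4 := generalDim_ge (r := s + 1) (by omega) j (fun _ : Fin k => 0)
      have h5 : ∀ i : Fin k, ((0 + (s + 1) - 1).choose (s + 1) : ℤ) = 0 := by
        intro i
        rw [Nat.choose_eq_zero_of_lt (by omega)]
        rfl
      have h6 : generalDim (s + 1) j (fun _ : Fin k => 0) ≤
          Module.finrank ℂ (fatForms (s + 1) j p fun _ => 0) := Nat.sInf_le ⟨p, rfl⟩
      rw [Finset.sum_congr rfl fun i _ => h5 i, Finset.sum_const_zero] at h4
      omega
    have h4 : (j + 1 + (s + 1)).choose (s + 1) = (j + 1 + s).choose s +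
        (j + (s + 1)).choose (s + 1) := by
      have h5 : j + 1 + (s + 1) = (j + 1 + s) + 1 := by omega
      have h6 : j + (s + 1) = j + 1 + s := by omega
      rw [h5, Nat.choose_succ_succ', h6]
    omega
  have hmon1 : ∀ j, generalDim (s + 1) j w ≤ generalDim (s + 1) (j + 1) w ∧ t j ≤ t (j + 1) := by
    intro j
    induction j with
    | zero =>
      refine ⟨?_, by rw [h0]; exact Nat.zero_le _⟩
      obtain ⟨p, hp1, hp2⟩ := hgen 1
      have h1 := grow_zero (j := 0) p w
      rw [hp2 0 (by omega), hp2 (0 + 1) le_rfl] at h1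
      exact h1
    | succ j ih =>
      have h1 := hmono j
      obtain ⟨h2, -⟩ := ih
      have h3 : generalDim (s + 1) (j + 1) w ≤ generalDim (s + 1) (j + 1 + 1) w := by
        have : j + 1 + 1 = j + 2 := rfl
        rw [this]
        omega
      refine ⟨h3, ?_⟩
      rw [ht, ht]
      have h4 : j + 1 - 1 = j := rfl
      have h5 : j + 1 + 1 - 1 = j + 1 := rfl
      have h6 : j + 1 + 1 = j + 2 := rfl
      rw [h4, h5, h6]
      omega
  have hm : Monotone t := monotone_nat_of_le_succ fun j => (hmon1 j).2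
  refine (seq_jumps hm h0 hC hE X).trans ?_
  have hX : t X ≤ (X + s).choose s := by
    rcases Nat.eq_zero_or_pos X with h1 | h1
    · rw [h1, h0]
      exact Nat.zero_le _
    · obtain ⟨x, rfl⟩ : ∃ x, X = x + 1 := ⟨X - 1, by omega⟩
      have h2 := hle x
      rw [ht]
      have h3 : x + 1 - 1 = x := rfl
      rw [h3]
      omega
  have h1 : X + (s + 1) - 1 = X + s := rfl
  have h2 : s + 1 - 1 = s := rfl
  rw [h1, h2]
  have h3 := log_mono hX
  have h4 : (0 : ℝ) ≤ C := by positivity
  have h5 : (0 : ℝ) ≤ E := by positivity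
  exact mul_le_mul_of_nonneg_left (by linarith [mul_le_mul_of_nonneg_left h3 h5]) h4

end Pool.Agent.H74.CT
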