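import Pool.Agent.H94.LP4.M25

/-!
# The growth of the dimension of the large part
-/

namespace Pool.Agent.H74.CT

open Pool.Agent.H18.Fat Pool.Agent.H18.Ub Finset

/-- The explicit constant. -/
def DL (r M : ℕ) : ℕ := 10 ^ 6 * r ^ 5 * 8 ^ r * M ^ 8 * (M + r - 1).choose r ^ 3

theorem DD_le_DL (r M : ℕ) : DD r M ≤ DL r M := by
  unfold DD DL
  have h1 : r ^ 3 ≤ r ^ 5 * 8 ^ r := by
    rcases Nat.eq_zero_or_pos r with h | h
    · subst h
      simp
    · calc r ^ 3 = r ^ 3 * 1 * 1 := by ring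
        _ ≤ r ^ 3 * r ^ 2 * 8 ^ r :=
          Nat.mul_le_mul (Nat.mul_le_mul_left _ (Nat.one_le_pow _ _ h)) (Nat.one_le_pow _ _ (by norm_num))
        _ = _ := by ring
  calc 10 ^ 6 * r ^ 3 * M ^ 8 * (M + r - 1).choose r ^ 3 =
      r ^ 3 * (10 ^ 6 * M ^ 8 * (M + r - 1).choose r ^ 3) := by ring
    _ ≤ r ^ 5 * 8 ^ r * (10 ^ 6 * M ^ 8 * (M + r - 1).choose r ^ 3) := Nat.mul_le_mul_right _ h1
    _ = _ := by ring

/-- The growth condition from bounds for the dimension. -/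
theorem growth_of_bounds (s k d C E e0 e1 e2 : ℕ) (m : Fin k → ℕ) (J : Finset (Fin k))
    (hC1 : 1 ≤ C) (hCd : C + 1 ≤ d) (h : ℕ → ℕ)
    (hh : ∀ j, h j = generalDim (s + 2) j fun i => if i ∈ J then m i else 0)
    (hu0 : h d + ∑ i ∈ J, (m i + (s + 2) - 1).choose (s + 2) ≤
      (d + (s + 2)).choose (s + 2) + e0)
    (hu1 : h (d - 1) + ∑ i ∈ J, (m i + (s + 2) - 1).choose (s + 2) ≤
      (d - 1 + (s + 2)).choose (s + 2) + e1)
    (hu2 : h (d - (C + 1)) + ∑ i ∈ J, (m i + (s + 2) - 1).choose (s + 2) ≤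
      (d - (C + 1) + (s + 2)).choose (s + 2) + e2)
    (hkey : E * (C * (d + s).choose s + e0 + e2) + e1 ≤ (d + (s + 1)).choose (s + 1)) :
    E * ((h d - h (d - 1)) - (h (d - C) - h (d - C - 1))) ≤ h d - h (d - 1) := by
  set S := ∑ i ∈ J, (m i + (s + 2) - 1).choose (s + 2) with hS
  set N1 := (d + (s + 1)).choose (s + 1) with hN1
  set N0 := (d + s).choose s with hN0
  have hl : ∀ j, (j + (s + 2)).choose (s + 2) ≤ h j + S := fun j => by
    rw [hh]
    exact dim_ge s j k m J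
  have hl0 := hl d
  have hl2 := hl (d - C)
  have hP1 : (d + (s + 2)).choose (s + 2) = N1 + (d - 1 + (s + 2)).choose (s + 2) := by
    have h4 : d + (s + 2) = (d + (s + 1)) + 1 := by omega
    have h5 : d - 1 + (s + 2) = d + (s + 1) := by omega
    rw [h4, Nat.choose_succ_succ', h5]
  have hP2 : (d - C + (s + 2)).choose (s + 2) = (d - C + (s + 1)).choose (s + 1) +
      (d - (C + 1) + (s + 2)).choose (s + 2) := by
    have h4 : d - C + (s + 2) = (d - C + (s + 1)) + 1 := by omega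
    have h5 : d - (C + 1) + (s + 2) = d - C + (s + 1) := by omega
    rw [h4, Nat.choose_succ_succ', h5]
  have hdrop : N1 ≤ (d - C + (s + 1)).choose (s + 1) + C * N0 := choose_drop s d C (by omega)
  have hl1 := hl (d - 1)
  have h4 : d - C - 1 = d - (C + 1) := by omega
  rw [h4]
  have h5 : (h d - h (d - 1)) - (h (d - C) - h (d - (C + 1))) ≤ C * N0 + e0 + e2 := by omega
  have h6 : N1 ≤ (h d - h (d - 1)) + e1 := by omega
  have h7 := Nat.mul_le_mul_left E h5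
  omega

theorem DL_consts (s M : ℕ) (hM : 1 ≤ M) (C E W q κ : ℕ)
    (hC : C = 66 * M ^ 3 * (M + (s + 2) - 1).choose (s + 2))
    (hE : E = 16 * M ^ 2 * (M + (s + 2) - 1).choose (s + 2)) (hW : W = WE s C) (hq : q = qq s C)
    (hκ : κ = kap s C) :
    (E * C + 2 * (E * W) + W) * (s + 2) ≤ DL (s + 2) M ∧
    4 * (3 * q + κ + s + (C + 1) + 1) ≤ DL (s + 2) M ∧ 66 ≤ C ∧ 1 ≤ E := by
  have hB : 1 ≤ (M + (s + 2) - 1).choose (s + 2) := Nat.choose_pos (by omega)
  unfold DL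
  generalize (M + (s + 2) - 1).choose (s + 2) = B at hB hC hE ⊢
  have hMB : 1 ≤ M ^ 3 * B := Nat.one_le_iff_ne_zero.2 (by positivity)
  have hC66 : 66 ≤ C := by
    rw [hC, Nat.mul_assoc]
    omega
  have hMB2 : 1 ≤ M ^ 2 * B := Nat.one_le_iff_ne_zero.2 (by positivity)
  have hE16 : 16 ≤ E := by
    rw [hE, Nat.mul_assoc]
    omega
  unfold WE at hW
  rw [← hq, ← hκ] at hW
  unfold qq at hq
  rw [← hκ] at hq
  unfold kap at hκ
  set r := s + 2 with hr
  have hr2 : 2 ≤ r := by omega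
  set A := 2 ^ r with hA
  have hA4 : 4 ≤ A := by
    calc 4 = 2 ^ 2 := by norm_num
      _ ≤ 2 ^ r := Nat.pow_le_pow_right (by norm_num) hr2
  have hrA : 8 ≤ r * A := by nlinarith only [hr, hA4]
  have h1 : κ + r ≤ r * C := by
    rw [hκ]
    nlinarith only [hC, hMB, hr]
  have h2 : q ≤ r * A * (r * C) := by
    rw [hq]
    exact Nat.mul_le_mul_left _ h1
  have h3 : 8 * κ ≤ q := by
    rw [hq]
    exact Nat.mul_le_mul hrA (Nat.le_add_right _ _)
  have h4 : 4 * W ≤ 9 * A * q ^ 2 := by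
    rw [hW]
    calc 4 * (A * ((q + κ) * (2 * q))) = A * ((8 * q + 8 * κ) * q) := by ring
      _ ≤ A * ((8 * q + q) * q) := by
        exact Nat.mul_le_mul_left _ (Nat.mul_le_mul_right _ (Nat.add_le_add_left h3 _))
      _ = _ := by ring
  have hA8 : A ^ 3 = 8 ^ r := by
    rw [hA, ← pow_mul, Nat.mul_comm r 3, pow_mul]
    norm_num
  have h5 : 4 * W ≤ 9 * 8 ^ r * r ^ 4 * C ^ 2 := by
    calc 4 * W ≤ 9 * A * q ^ 2 := h4
      _ ≤ 9 * A * (r * A * (r * C)) ^ 2 := Nat.mul_le_mul_left _ (Nat.pow_le_pow_left h2 2)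
      _ = 9 * A ^ 3 * r ^ 4 * C ^ 2 := by ring
      _ = _ := by rw [hA8]
  set T := 8 ^ r * r ^ 5 * C ^ 2 with hT
  have h8 : 1 ≤ 8 ^ r := Nat.one_le_pow _ _ (by norm_num)
  have h6 : 4 * (E * C * r) ≤ E * T := by
    have h7 : 4 * (C * r) ≤ T := by
      rw [hT]
      calc 4 * (C * r) = (1 * r) * (4 * C) := by ring
        _ ≤ (8 ^ r * r ^ 5) * (C * C) := by
          refine Nat.mul_le_mul (Nat.mul_le_mul h8 ?_) (Nat.mul_le_mul_right _ (by omega))
          calc r = r ^ 1 := (pow_one r).symm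
            _ ≤ r ^ 5 := Nat.pow_le_pow_right (by omega) (by norm_num)
        _ = _ := by ring
    calc 4 * (E * C * r) = E * (4 * (C * r)) := by ring
      _ ≤ E * T := Nat.mul_le_mul_left _ h7
  have h7 : 4 * (W * r) ≤ 9 * T := by
    calc 4 * (W * r) = (4 * W) * r := by ring
      _ ≤ (9 * 8 ^ r * r ^ 4 * C ^ 2) * r := Nat.mul_le_mul_right _ h5
      _ = 9 * T := by rw [hT]; ring
  have h9 : E * T = 69696 * (r ^ 5 * 8 ^ r * M ^ 8 * B ^ 3) := by
    rw [hE, hT, hC]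
    ring
  have h10 : 4 * (10 ^ 6 * r ^ 5 * 8 ^ r * M ^ 8 * B ^ 3) =
      4000000 * (r ^ 5 * 8 ^ r * M ^ 8 * B ^ 3) := by ring
  refine ⟨?_, ?_, hC66, by omega⟩
  · have h11 : 4 * ((E * C + 2 * (E * W) + W) * r) ≤ 20 * (E * T) := by
      have h12 : 4 * ((E * C + 2 * (E * W) + W) * r) =
          4 * (E * C * r) + 2 * (E * (4 * (W * r))) + 4 * (W * r) := by ring
      have h13 : E * (4 * (W * r)) ≤ E * (9 * T) := Nat.mul_le_mul_left _ h7
      have h14 : E * (9 * T) = 9 * (E * T) := by ring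
      have h15 : 16 * T ≤ E * T := Nat.mul_le_mul_right _ hE16
      rw [h12]
      omega
    rw [h9] at h11
    omega
  · have h11 : 4 * (3 * q + κ + s + (C + 1) + 1) ≤ 20 * q := by
      have : s + (C + 1) + 1 = κ := by
        rw [hκ]
        omega
      omega
    have h12 : q ≤ T := by
      refine h2.trans ?_
      rw [hT]
      calc r * A * (r * C) = (A * r ^ 2) * C := by ring
        _ ≤ (8 ^ r * r ^ 5) * (C ^ 2) := by
          refine Nat.mul_le_mul (Nat.mul_le_mul ?_ (Nat.pow_le_pow_right (by omega)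
            (by norm_num))) ?_
          · rw [← hA8]
            calc A = A ^ 1 := (pow_one A).symm
              _ ≤ A ^ 3 := Nat.pow_le_pow_right (by omega) (by norm_num)
          · calc C = C ^ 1 := (pow_one C).symm
              _ ≤ C ^ 2 := Nat.pow_le_pow_right (by omega) (by norm_num)
        _ = _ := by ring
    have h13 : 20 * T ≤ 2 * (E * T) := by
      have : 16 * T ≤ E * T := Nat.mul_le_mul_right _ hE16
      omega
    rw [h9] at h13
    omega

/-- The growth condition for fewer than `2 ^ r` points. -/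
theorem growth_few (s M k d : ℕ) (hM : 1 ≤ M) (m : Fin k → ℕ) (J : Finset (Fin k))
    (hDd : DL (s + 2) M ≤ d) (h1 : ∀ i ∈ J, m i + DL (s + 2) M ≤ d) (h2 : J.card < 2 ^ (s + 2))
    (h3 : ∀ a ∈ J, ∀ b ∈ J, a ≠ b → m a + m b ≤ d + 1) (h : ℕ → ℕ)
    (hh : ∀ j, h j = generalDim (s + 2) j fun i => if i ∈ J then m i else 0) :
    16 * M ^ 2 * (M + (s + 2) - 1).choose (s + 2) * ((h d - h (d - 1)) -
      (h (d - 66 * M ^ 3 * (M + (s + 2) - 1).choose (s + 2)) -
        h (d - 66 * M ^ 3 * (M + (s + 2) - 1).choose (s + 2) - 1))) ≤ h d - h (d - 1) := by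
  set C := 66 * M ^ 3 * (M + (s + 2) - 1).choose (s + 2) with hC
  set E := 16 * M ^ 2 * (M + (s + 2) - 1).choose (s + 2) with hE
  obtain ⟨c1, c2, c3, c4⟩ := DL_consts s M hM C E (WE s C) (qq s C) (kap s C) hC hE rfl rfl rfl
  set D := DL (s + 2) M with hD
  set W := WE s C with hW
  have hCD : C + 1 ≤ D := by omega
  have hnear : ∀ δ ≤ C + 1, h (d - δ) + ∑ i ∈ J, (m i + (s + 2) - 1).choose (s + 2) ≤
      (d - δ + (s + 2)).choose (s + 2) + W * (d + s).choose s := by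
    intro δ hδ
    rw [hh]
    refine near2 s C k d D δ m J hδ (le_trans ?_ c2) hDd h1 h2 h3
    omega
  have hu0 := hnear 0 (by omega)
  have hu1 := hnear 1 (by omega)
  have hu2 := hnear (C + 1) le_rfl
  rw [Nat.sub_zero] at hu0
  refine growth_of_bounds s k d C E _ _ _ m J (by omega) (by omega) h hh hu0 hu1 hu2 ?_
  -- the numerical condition
  set N1 := (d + (s + 1)).choose (s + 1) with hN1
  set N0 := (d + s).choose s with hN0
  have hN : (d + (s + 1)) * N0 = N1 * (s + 1) := Nat.add_one_mul_choose_eq (d + s) s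
  have h4 : D * N0 ≤ N1 * (s + 2) := by
    calc D * N0 ≤ (d + (s + 1)) * N0 := Nat.mul_le_mul_right _ (by omega)
      _ = N1 * (s + 1) := hN
      _ ≤ N1 * (s + 2) := Nat.mul_le_mul_left _ (by omega)
  have h5 : D * (E * (C * N0 + W * N0 + W * N0) + W * N0) ≤ D * N1 := by
    calc D * (E * (C * N0 + W * N0 + W * N0) + W * N0) =
        (E * C + 2 * (E * W) + W) * (D * N0) := by ring
      _ ≤ (E * C + 2 * (E * W) + W) * (N1 * (s + 2)) := Nat.mul_le_mul_left _ h4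
      _ = ((E * C + 2 * (E * W) + W) * (s + 2)) * N1 := by ring
      _ ≤ D * N1 := Nat.mul_le_mul_right _ c1
  exact Nat.le_of_mul_le_mul_left h5 (by omega)

/-- The growth condition and the dimension for points with small sum. -/
theorem growth_sum (s M k d : ℕ) (hM : 1 ≤ M) (m : Fin k → ℕ) (J : Finset (Fin k))
    (hDd : DD (s + 2) M ≤ d) (h1 : ∀ i ∈ J, m i + DD (s + 2) M ≤ d)
    (h2 : ∑ i ∈ J, m i + DD (s + 2) M ≤ (s + 2) * d)
    (h3 : ∀ a ∈ J, ∀ b ∈ J, a ≠ b → m a + m b ≤ d + 1) (h : ℕ → ℕ)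
    (hh : ∀ j, h j = generalDim (s + 2) j fun i => if i ∈ J then m i else 0) :
    16 * M ^ 2 * (M + (s + 2) - 1).choose (s + 2) * ((h d - h (d - 1)) -
      (h (d - 66 * M ^ 3 * (M + (s + 2) - 1).choose (s + 2)) -
        h (d - 66 * M ^ 3 * (M + (s + 2) - 1).choose (s + 2) - 1))) ≤ h d - h (d - 1) ∧
    h d + ∑ i ∈ J, (m i + (s + 2) - 1).choose (s + 2) ≤ (d + (s + 2)).choose (s + 2) := by
  obtain ⟨hc1, hc2, hB⟩ := DD_consts s M hM
  set D := DD (s + 2) M with hD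
  set B := (M + (s + 2) - 1).choose (s + 2) with hBdef
  set C := 66 * M ^ 3 * B with hC
  set E := 16 * M ^ 2 * B with hE
  have hC1 : 1 ≤ C := Nat.one_le_iff_ne_zero.2 (by positivity)
  have hD0 : 1 ≤ D := by
    refine le_trans ?_ hc1
    exact Nat.one_le_iff_ne_zero.2 (by positivity)
  have hs4 : 4 ≤ (s + 2) ^ 2 := by nlinarith
  have hCD : C + 1 ≤ D := by nlinarith
  have hmono : ∀ δ ≤ C + 1, 4 * (s + 2) ^ 2 * δ ≤ D := fun δ hδ =>
    (Nat.mul_le_mul_left _ hδ).trans hc1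
  obtain ⟨e0, he0, hu0⟩ := near (hmono 0 (by omega)) hD0 hDd h1 h2 h3
  obtain ⟨e1, he1, hu1⟩ := near (hmono 1 (by omega)) hD0 hDd h1 h2 h3
  obtain ⟨e2, he2, hu2⟩ := near (hmono (C + 1) le_rfl) hD0 hDd h1 h2 h3
  have he0' : e0 = 0 := by
    have : D * e0 ≤ 0 := by
      refine he0.trans (le_of_eq ?_)
      ring
    have h4 : D * e0 = 0 := by omega
    rcases Nat.mul_eq_zero.1 h4 with h5 | h5
    · omega
    · exact h5
  subst he0'
  rw [← hh] at hu0 hu1 hu2
  rw [Nat.sub_zero] at hu0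
  refine ⟨?_, hu0⟩
  refine growth_of_bounds s k d C E _ _ _ m J hC1 (by omega) h hh hu0 hu1 hu2 ?_
  set N1 := (d + (s + 1)).choose (s + 1) with hN1
  set N0 := (d + s).choose s with hN0
  have hN : (d + (s + 1)) * N0 = N1 * (s + 1) := Nat.add_one_mul_choose_eq (d + s) s
  have h16 : 16 ≤ E := by
    have h4 : 1 ≤ M ^ 2 * B := Nat.one_le_iff_ne_zero.2 (by positivity)
    rw [hE, Nat.mul_assoc]
    omega
  have h4 : D * N0 ≤ N1 * (s + 2) := by
    calc D * N0 ≤ (d + (s + 1)) * N0 := Nat.mul_le_mul_right _ (by omega)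
      _ = N1 * (s + 1) := hN
      _ ≤ N1 * (s + 2) := Nat.mul_le_mul_left _ (by omega)
  have h5 : D * (E * (C * N0 + 0 + e2) + e1) ≤ D * N1 := by
    calc D * (E * (C * N0 + 0 + e2) + e1) = E * C * (D * N0) + E * (D * e2) + D * e1 := by ring
      _ ≤ E * C * (N1 * (s + 2)) + E * (8 * (s + 2) ^ 3 * (C + 1) ^ 2 * N1) +
          8 * (s + 2) ^ 3 * 1 ^ 2 * N1 :=
        Nat.add_le_add (Nat.add_le_add (Nat.mul_le_mul_left _ h4) (Nat.mul_le_mul_left _ he2)) he1
      _ = (E * C * (s + 2) + 8 * E * (s + 2) ^ 3 * (C + 1) ^ 2 + 8 * (s + 2) ^ 3) * N1 := by ring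
      _ ≤ (10 * E * (s + 2) ^ 3 * (C + 1) ^ 2) * N1 := by
        exact Nat.mul_le_mul_right _ (num_ineq s E C h16)
      _ ≤ D * N1 := Nat.mul_le_mul_right _ hc2
  exact Nat.le_of_mul_le_mul_left h5 hD0

end Pool.Agent.H74.CT
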