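import Pool.Agent.H94.LP4.H18.Pr.CremR
import Pool.Agent.H94.LP4.H18.Ub.VDim

/-!
# Any number of large multiplicities with sum at most `r d - D` and pair sums at most `d + 1`
-/

namespace Pool.Agent.H74.CT

open Pool.Agent.H18.Fat Pool.Agent.H18.Ub Finset

theorem generalDim_ge {r : ℕ} (hr : 1 ≤ r) (d : ℕ) {k : ℕ} (m : Fin k → ℕ) :
    ((d + r).choose r : ℤ) - ∑ i, ((m i + r - 1).choose r : ℤ) ≤ generalDim r d m := by
  obtain ⟨p, hp1, hp2⟩ := Pool.Agent.H18.Cub.exists_of_general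
    ((generalDim_spec r d m).and (Pool.Agent.H18.Pr.general_ne_zero r k))
  have := finrank_fatForms_ge (d := d) hr hp2 m
  rw [hp1] at this
  exact this

/-- The explicit constant. -/
def DD (r M : ℕ) : ℕ := 10 ^ 6 * r ^ 3 * M ^ 8 * (M + r - 1).choose r ^ 3

theorem DD_consts (s M : ℕ) (hM : 1 ≤ M) :
    4 * (s + 2) ^ 2 * (66 * M ^ 3 * (M + (s + 2) - 1).choose (s + 2) + 1) ≤ DD (s + 2) M ∧
    10 * (16 * M ^ 2 * (M + (s + 2) - 1).choose (s + 2)) * (s + 2) ^ 3 *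
      (66 * M ^ 3 * (M + (s + 2) - 1).choose (s + 2) + 1) ^ 2 ≤ DD (s + 2) M ∧
    1 ≤ (M + (s + 2) - 1).choose (s + 2) := by
  have hB : 1 ≤ (M + (s + 2) - 1).choose (s + 2) := Nat.choose_pos (by omega)
  unfold DD
  generalize (M + (s + 2) - 1).choose (s + 2) = B at hB ⊢
  have hC : 66 * M ^ 3 * B + 1 ≤ 67 * M ^ 3 * B := by
    have : 1 ≤ M ^ 3 * B := Nat.one_le_iff_ne_zero.2 (by positivity)
    nlinarith only [this]
  refine ⟨?_, ?_, hB⟩
  · calc 4 * (s + 2) ^ 2 * (66 * M ^ 3 * B + 1) ≤ 4 * (s + 2) ^ 2 * (67 * M ^ 3 * B) :=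
          Nat.mul_le_mul_left _ hC
      _ = (268 * (s + 2) ^ 2 * M ^ 3 * B) * 1 := by ring
      _ ≤ (268 * (s + 2) ^ 2 * M ^ 3 * B) * ((s + 2) * M ^ 5 * B ^ 2) :=
          Nat.mul_le_mul_left _ (Nat.one_le_iff_ne_zero.2 (by positivity))
      _ = 268 * ((s + 2) ^ 3 * M ^ 8 * B ^ 3) := by ring
      _ ≤ 10 ^ 6 * ((s + 2) ^ 3 * M ^ 8 * B ^ 3) := Nat.mul_le_mul_right _ (by norm_num)
      _ = _ := by ring
  · calc 10 * (16 * M ^ 2 * B) * (s + 2) ^ 3 * (66 * M ^ 3 * B + 1) ^ 2 ≤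
        10 * (16 * M ^ 2 * B) * (s + 2) ^ 3 * (67 * M ^ 3 * B) ^ 2 :=
          Nat.mul_le_mul_left _ (Nat.pow_le_pow_left hC 2)
      _ = 718240 * ((s + 2) ^ 3 * M ^ 8 * B ^ 3) := by ring
      _ ≤ 10 ^ 6 * ((s + 2) ^ 3 * M ^ 8 * B ^ 3) := Nat.mul_le_mul_right _ (by norm_num)
      _ = _ := by ring

theorem num_ineq (s E C : ℕ) (hE : 16 ≤ E) :
    E * C * (s + 2) + 8 * E * (s + 2) ^ 3 * (C + 1) ^ 2 + 8 * (s + 2) ^ 3 ≤
      10 * E * (s + 2) ^ 3 * (C + 1) ^ 2 := by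
  have h6 : E * C * (s + 2) ≤ E * (s + 2) ^ 3 * (C + 1) ^ 2 := by
    calc E * C * (s + 2) = E * (s + 2) * C := by ring
      _ ≤ E * (s + 2) * ((s + 2) ^ 2 * (C + 1) ^ 2) := by
        refine Nat.mul_le_mul_left _ ?_
        have h7 : C ≤ (C + 1) ^ 2 := by nlinarith only
        calc C ≤ 1 * (C + 1) ^ 2 := by rw [one_mul]; exact h7
          _ ≤ _ := Nat.mul_le_mul_right _ (Nat.one_le_iff_ne_zero.2 (by positivity))
      _ = _ := by ring
  have h8 : 8 * (s + 2) ^ 3 ≤ E * (s + 2) ^ 3 * (C + 1) ^ 2 := by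
    calc 8 * (s + 2) ^ 3 ≤ E * (s + 2) ^ 3 := Nat.mul_le_mul_right _ (by omega)
      _ = E * (s + 2) ^ 3 * 1 := by ring
      _ ≤ _ := Nat.mul_le_mul_left _ (Nat.one_le_iff_ne_zero.2 (by positivity))
  have h9 : 8 * E * (s + 2) ^ 3 * (C + 1) ^ 2 = 8 * (E * (s + 2) ^ 3 * (C + 1) ^ 2) := by ring
  have h10 : 10 * E * (s + 2) ^ 3 * (C + 1) ^ 2 = 10 * (E * (s + 2) ^ 3 * (C + 1) ^ 2) := by ring
  rw [h9, h10]
  omega

/-- Lower bound for the general dimension. -/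
theorem dim_ge (s j k : ℕ) (m : Fin k → ℕ) (J : Finset (Fin k)) :
    (j + (s + 2)).choose (s + 2) ≤ (generalDim (s + 2) j fun i => if i ∈ J then m i else 0) +
      ∑ i ∈ J, (m i + (s + 2) - 1).choose (s + 2) := by
  have h1 := generalDim_ge (r := s + 2) (by omega) j
    (fun i => if i ∈ J then m i else 0)
  have h2 : ∑ i, ((((if i ∈ J then m i else 0) + (s + 2) - 1).choose (s + 2) : ℕ) : ℤ) =
      ((∑ i ∈ J, (m i + (s + 2) - 1).choose (s + 2) : ℕ) : ℤ) := by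
    rw [← Nat.cast_sum]
    congr 1
    rw [← sum_filter_add_sum_filter_not univ (fun i => i ∈ J)]
    have h3 : ∑ i ∈ univ.filter (fun i => i ∉ J),
        ((if i ∈ J then m i else 0) + (s + 2) - 1).choose (s + 2) = 0 := by
      refine sum_eq_zero fun i hi => ?_
      rw [if_neg (mem_filter.1 hi).2, Nat.choose_eq_zero_of_lt (by omega)]
    have h4 : univ.filter (fun i => i ∈ J) = J := by
      ext i
      simp
    rw [h3, add_zero, h4]
    exact sum_congr rfl fun i hi => by rw [if_pos hi]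
  rw [h2] at h1
  omega

end Pool.Agent.H74.CT
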